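import Pool.Agent.X13.UC.Ang

/-!
# Unboundedness of the coefficients of `(q;q)_∞ T_o(q)`
-/

namespace Pool.Agent.Results.MP_91ed4c_nt.Unbounded

open PowerSeries Finset

/-- The `m`-th term `q^{2m} (-q;q)_{2m} / (q;q^2)_{m+1}` of `T_o(q)`, a power series over `ℤ`;
`invOfUnit φ 1` is the multiplicative inverse of a series `φ` with constant coefficient `1`. -/
noncomputable def T (m : ℕ) : ℤ⟦X⟧ :=
  X ^ (2 * m) * (∏ j ∈ range (2 * m), (1 + X ^ (j + 1)))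
    * PowerSeries.invOfUnit (∏ j ∈ range (m + 1), (1 - X ^ (2 * j + 1))) 1

/-- The coefficient `c(n)` of `q^n` in `C(q) = (q;q)_∞ ∑_{m ≥ 0} T_m`. The factors `1 - q^j` with
`j > n` of the product and the terms with `m > n` of the sum do not influence it. -/
noncomputable def c (n : ℕ) : ℤ :=
  coeff n ((∏ j ∈ range n, (1 - (X : ℤ⟦X⟧) ^ (j + 1))) * ∑ m ∈ range (n + 1), T m)

theorem c_eq (n : ℕ) : c n = Pool.Agent.X13.UC.cc n := by
  have hT : ∀ m, T m = Pool.Agent.X13.UC.term m := fun m => rfl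
  have h1 : Pool.Agent.X13.UC.E (-1) 0
      = (∏ j ∈ range n, (1 - (X : ℤ⟦X⟧) ^ (j + 1))) * Pool.Agent.X13.UC.E (-1) n := by
    rw [Pool.Agent.X13.UC.E_prod (-1) 0 n, show 0 + n = n from Nat.zero_add n]
    congr 1
    refine prod_congr rfl fun i _ => ?_
    rw [show 0 + 1 + i = i + 1 by ring]
    ring
  unfold c Pool.Agent.X13.UC.cc
  rw [h1]
  have h2 := Pool.Agent.X13.UC.E_dvd (-1) n
  have h3 : (X : ℤ⟦X⟧) ^ (n + 1) ∣ Pool.Agent.X13.UC.To - ∑ m ∈ range (n + 1), T m := by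
    rw [X_pow_dvd_iff]
    intro k hk
    unfold Pool.Agent.X13.UC.To
    rw [map_sub, Pool.Agent.X13.UC.coeff_S Pool.Agent.X13.UC.ok_term hk, map_sum]
    simp only [hT, sub_self]
  have h4 : (X : ℤ⟦X⟧) ^ (n + 1) ∣ (∏ j ∈ range n, (1 - (X : ℤ⟦X⟧) ^ (j + 1)))
        * Pool.Agent.X13.UC.E (-1) n * Pool.Agent.X13.UC.To
      - (∏ j ∈ range n, (1 - (X : ℤ⟦X⟧) ^ (j + 1))) * ∑ m ∈ range (n + 1), T m := by
    have e : (∏ j ∈ range n, (1 - (X : ℤ⟦X⟧) ^ (j + 1)))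
        * Pool.Agent.X13.UC.E (-1) n * Pool.Agent.X13.UC.To
      - (∏ j ∈ range n, (1 - (X : ℤ⟦X⟧) ^ (j + 1))) * ∑ m ∈ range (n + 1), T m
      = (∏ j ∈ range n, (1 - (X : ℤ⟦X⟧) ^ (j + 1))) * (Pool.Agent.X13.UC.E (-1) n - 1)
          * Pool.Agent.X13.UC.To
        + (∏ j ∈ range n, (1 - (X : ℤ⟦X⟧) ^ (j + 1)))
          * (Pool.Agent.X13.UC.To - ∑ m ∈ range (n + 1), T m) := by ring
    rw [e]
    exact dvd_add ((h2.mul_left _).mul_right _) (h3.mul_left _)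
  have h5 := X_pow_dvd_iff.mp h4 n (Nat.lt_succ_self n)
  rw [map_sub, sub_eq_zero] at h5
  exact h5.symm

/-- `limsup c(n) = +∞` and `liminf c(n) = -∞`. -/
theorem result (M : ℤ) : (∃ n : ℕ, M < c n) ∧ (∃ n : ℕ, c n < -M) := by
  simp only [c_eq]
  exact Pool.Agent.X13.UC.cc_unbdd M

end Pool.Agent.Results.MP_91ed4c_nt.Unbounded
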